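import Mathlib

set_option autoImplicit false

/-!
MP_61e9ba_co: the value `1 - 1/(2t)` is not good for `t`.
-/

namespace Pool.Agent.Results.MP_61e9ba_co.IntervalBound

open Finset

/-- cyclic distance of `i` and `j` in `ℤ/n` at most `k` -/
def Near (n k : ℕ) (i j : ZMod n) : Prop := ∃ d : ℕ, d ≤ k ∧ (j = i + d ∨ i = j + d)

/-- the `k`-th power of the `n`-cycle -/
def cyc (n k : ℕ) : SimpleGraph (ZMod n) where
  Adj i j := i ≠ j ∧ Near n k i j
  symm := ⟨fun _ _ h => ⟨h.1.symm, by
    obtain ⟨d, hd, h'⟩ := h.2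
    exact ⟨d, hd, h'.symm⟩⟩⟩
  loopless := ⟨fun _ h => h.1 rfl⟩

/-- `H` is an `α`-subgraph of `G` -/
def IsAlphaSubgraph {V : Type} (α : ℝ) (G H : SimpleGraph V) : Prop :=
  H ≤ G ∧ ∀ v, α * ((G.neighborSet v).ncard : ℝ) ≤ ((H.neighborSet v).ncard : ℝ)

/-- `H` (on `n` vertices) contains the `t`-th power of a Hamilton cycle -/
def HasPower (n t : ℕ) {V : Type} (H : SimpleGraph V) : Prop :=
  ∃ φ : ZMod n ≃ V, ∀ i j : ZMod n, i ≠ j → Near n t i j → H.Adj (φ i) (φ j)

/-- `α` is good for `t` -/
def Good (t : ℕ) (α : ℝ) : Prop :=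
  ∃ k₀ : ℕ, ∀ k : ℕ, k₀ ≤ k → ∀ n : ℕ, 3 ≤ n → k ≤ n → ∀ H : SimpleGraph (ZMod n),
    IsAlphaSubgraph α (cyc n k) H → HasPower n t H

/-- the union of the two intervals `[0, m]` and `[p, p + m]` -/
def inS (p m x : ℕ) : Prop := x ≤ m ∨ (p ≤ x ∧ x ≤ p + m)

instance (p m x : ℕ) : Decidable (inS p m x) := by unfold inS; infer_instance

/-- the cycle power without the edges inside of the two intervals -/
def Hgr (n k p m : ℕ) : SimpleGraph (ZMod n) where
  Adj i j := (cyc n k).Adj i j ∧ ¬ (inS p m i.val ∧ inS p m j.val)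
  symm := ⟨fun _ _ h => ⟨h.1.symm, fun h' => h.2 ⟨h'.2, h'.1⟩⟩⟩
  loopless := ⟨fun _ h => (cyc n k).loopless.irrefl _ h.1⟩

lemma val_shift {n : ℕ} [NeZero n] (x : ZMod n) (d : ℕ) (hd : d < n) :
    (x + d).val = x.val + d ∨ (x + d).val + n = x.val + d := by
  have h1 : (d : ZMod n).val = d := ZMod.val_natCast_of_lt hd
  have hx := ZMod.val_lt x
  by_cases h : x.val + d < n
  · left
    rw [ZMod.val_add_of_lt (by rw [h1]; exact h), h1]
  · right
    have := ZMod.val_add_val_of_le (a := x) (b := (d : ZMod n)) (by rw [h1]; omega)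
    rw [h1] at this
    omega

lemma deg_ge {n k : ℕ} [NeZero n] (hn : 2 * k + 1 ≤ n) (v : ZMod n) :
    2 * k ≤ ((cyc n k).neighborSet v).ncard := by
  classical
  let g : ℕ → ZMod n := fun e => v - k + e
  have hinj : Set.InjOn g (Finset.range (2 * k + 1)) := by
    intro a ha b hb hab
    simp only [Finset.coe_range, Set.mem_Iio] at ha hb
    have h1 : (a : ZMod n) = b := by
      simpa [g] using hab
    have h2 := congrArg ZMod.val h1
    rwa [ZMod.val_natCast_of_lt (by omega), ZMod.val_natCast_of_lt (by omega)] at h2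
  have hsub : ((((Finset.range (2 * k + 1)).erase k).image g : Finset (ZMod n)) : Set (ZMod n)) ⊆
      (cyc n k).neighborSet v := by
    intro x hx
    simp only [Finset.coe_image, Set.mem_image, Finset.mem_coe, Finset.mem_erase,
      Finset.mem_range] at hx
    obtain ⟨e, ⟨hek, he⟩, rfl⟩ := hx
    rw [SimpleGraph.mem_neighborSet]
    refine ⟨?_, ?_⟩
    · intro h
      apply hek
      apply hinj
      · simp; omega
      · simp; omega
      · show v - (k : ZMod n) + (e : ZMod n) = v - k + k
        rw [sub_add_cancel]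
        exact h.symm
    · rcases Nat.lt_or_ge e k with hlt | hge
      · refine ⟨k - e, by omega, Or.inr ?_⟩
        show v = v - (k : ZMod n) + (e : ZMod n) + ((k - e : ℕ) : ZMod n)
        rw [Nat.cast_sub hlt.le]
        ring
      · refine ⟨e - k, by omega, Or.inl ?_⟩
        show v - (k : ZMod n) + (e : ZMod n) = v + ((e - k : ℕ) : ZMod n)
        rw [Nat.cast_sub hge]
        ring
  calc 2 * k = ((Finset.range (2 * k + 1)).erase k).card := by
        rw [Finset.card_erase_of_mem (by simp; omega)]; simp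
    _ = (((Finset.range (2 * k + 1)).erase k).image g).card := by
        rw [Finset.card_image_of_injOn]
        exact hinj.mono (by
          intro x hx
          simp only [Finset.coe_erase, Set.mem_sdiff, Finset.mem_coe] at hx
          exact hx.1)
    _ = ((((Finset.range (2 * k + 1)).erase k).image g : Finset (ZMod n)) : Set (ZMod n)).ncard :=
        (Set.ncard_coe_finset _).symm
    _ ≤ ((cyc n k).neighborSet v).ncard := Set.ncard_le_ncard hsub (Set.toFinite _)

/-- interval of values -/
lemma interval_card {n : ℕ} [NeZero n] (a m : ℕ) (v : ZMod n) (hv : a ≤ v.val ∧ v.val ≤ a + m) :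
    {x : ZMod n | (a ≤ x.val ∧ x.val ≤ a + m) ∧ x ≠ v}.ncard ≤ m := by
  classical
  have hmaps : ∀ x ∈ {x : ZMod n | (a ≤ x.val ∧ x.val ≤ a + m) ∧ x ≠ v},
      x.val ∈ (((Finset.Icc a (a + m)).erase v.val : Finset ℕ) : Set ℕ) := by
    rintro x ⟨⟨h1, h2⟩, h3⟩
    simp only [Finset.coe_erase, Set.mem_sdiff, Finset.mem_coe, Finset.mem_Icc,
      Set.mem_singleton_iff]
    exact ⟨⟨h1, h2⟩, fun h => h3 (ZMod.val_injective n h)⟩
  have h := Set.ncard_le_ncard_of_injOn (t := (((Finset.Icc a (a + m)).erase v.val : Finset ℕ) : Set ℕ))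
    ZMod.val hmaps ((ZMod.val_injective n).injOn) (Set.toFinite _)
  rw [Set.ncard_coe_finset, Finset.card_erase_of_mem (by simp [hv.1, hv.2]), Nat.card_Icc] at h
  exact h.trans (by omega)

lemma same_interval {n k p m : ℕ} [NeZero n] (hp : p = m + 1 + k) (hn : n = 2 * p)
    (v u : ZMod n) (hvu : Near n k v u) (hv : inS p m v.val) (hu : inS p m u.val) :
    (v.val ≤ m ∧ u.val ≤ m) ∨ (p ≤ v.val ∧ p ≤ u.val) := by
  obtain ⟨d, hd, h⟩ := hvu
  unfold inS at hv hu
  rcases h with h | h
  · have := val_shift v d (by omega)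
    rw [← h] at this
    omega
  · have := val_shift u d (by omega)
    rw [← h] at this
    omega

lemma deg_H {n k p m : ℕ} [NeZero n] (hp : p = m + 1 + k) (hn : n = 2 * p) (v : ZMod n) :
    ((cyc n k).neighborSet v).ncard ≤ ((Hgr n k p m).neighborSet v).ncard + m := by
  classical
  by_cases hv : inS p m v.val
  · have hex : ∃ a, (a ≤ v.val ∧ v.val ≤ a + m) ∧ ∀ u : ZMod n, Near n k v u → inS p m u.val →
        a ≤ u.val ∧ u.val ≤ a + m := by
      by_cases h0 : v.val ≤ m
      · refine ⟨0, by omega, ?_⟩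
        intro u hu hus
        have := same_interval hp hn v u hu hv hus
        unfold inS at hus
        omega
      · have h1 : p ≤ v.val ∧ v.val ≤ p + m := by
          unfold inS at hv
          omega
        refine ⟨p, h1, ?_⟩
        intro u hu hus
        have := same_interval hp hn v u hu hv hus
        unfold inS at hus
        omega
    obtain ⟨a, ha, hau⟩ := hex
    have hsub : (cyc n k).neighborSet v ⊆ (Hgr n k p m).neighborSet v ∪
        {x : ZMod n | (a ≤ x.val ∧ x.val ≤ a + m) ∧ x ≠ v} := by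
      intro u hu
      rw [SimpleGraph.mem_neighborSet] at hu
      by_cases hus : inS p m u.val
      · right
        exact ⟨hau u hu.2 hus, hu.1.symm⟩
      · left
        rw [SimpleGraph.mem_neighborSet]
        exact ⟨hu, fun h => hus h.2⟩
    calc ((cyc n k).neighborSet v).ncard ≤ _ := Set.ncard_le_ncard hsub (Set.toFinite _)
      _ ≤ _ := Set.ncard_union_le _ _
      _ ≤ _ := Nat.add_le_add_left (interval_card a m v ha) _
  · have hsub : (cyc n k).neighborSet v ⊆ (Hgr n k p m).neighborSet v := by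
      intro u hu
      rw [SimpleGraph.mem_neighborSet] at hu ⊢
      exact ⟨hu, fun h => hv h.1⟩
    exact (Set.ncard_le_ncard hsub (Set.toFinite _)).trans (Nat.le_add_right _ _)

/-- an independent set of a graph containing a `t`-th power of a Hamilton cycle is small -/
lemma indep_small {n t : ℕ} [NeZero n] (htn : t < n) (H : SimpleGraph (ZMod n)) (h : HasPower n t H)
    (S : Finset (ZMod n)) (hS : ∀ x ∈ S, ∀ y ∈ S, ¬ H.Adj x y) : (t + 1) * S.card ≤ n := by
  classical
  obtain ⟨φ, hφ⟩ := h
  have h1 : ∀ i : ZMod n, ((Finset.range (t + 1)).filter (fun s : ℕ => φ (i + (s : ZMod n)) ∈ S)).card ≤ 1 := by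
    intro i
    rw [Finset.card_le_one]
    intro a ha b hb
    rw [Finset.mem_filter, Finset.mem_range] at ha hb
    by_contra hab
    have hne : (i + (a : ZMod n)) ≠ i + (b : ZMod n) := by
      intro h
      have h2 : (a : ZMod n) = b := by simpa using h
      have h3 := congrArg ZMod.val h2
      rw [ZMod.val_natCast_of_lt (by omega), ZMod.val_natCast_of_lt (by omega)] at h3
      exact hab h3
    apply hS _ ha.2 _ hb.2
    apply hφ _ _ hne
    rcases Nat.lt_or_ge a b with hlt | hge
    · refine ⟨b - a, by omega, Or.inl ?_⟩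
      rw [Nat.cast_sub hlt.le]
      ring
    · refine ⟨a - b, by omega, Or.inr ?_⟩
      rw [Nat.cast_sub hge]
      ring
  have h2 : ∑ i : ZMod n, ((Finset.range (t + 1)).filter (fun s : ℕ => φ (i + (s : ZMod n)) ∈ S)).card =
      (t + 1) * S.card := by
    simp_rw [Finset.card_filter]
    rw [Finset.sum_comm]
    have h3 : ∀ s ∈ Finset.range (t + 1),
        ∑ i : ZMod n, (if φ (i + (s : ZMod n)) ∈ S then 1 else 0) = S.card := by
      intro s _
      have h4 : ∑ i : ZMod n, (if φ (i + (s : ZMod n)) ∈ S then 1 else 0) =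
          ∑ x : ZMod n, (if x ∈ S then 1 else 0) :=
        Equiv.sum_comp ((Equiv.addRight (s : ZMod n)).trans φ) (fun x => if x ∈ S then 1 else 0)
      rw [h4]
      simp
    rw [Finset.sum_congr rfl h3]
    simp
  rw [← h2]
  calc ∑ i : ZMod n, ((Finset.range (t + 1)).filter (fun s : ℕ => φ (i + (s : ZMod n)) ∈ S)).card
      ≤ ∑ _i : ZMod n, 1 := Finset.sum_le_sum (fun i _ => h1 i)
    _ = n := by simp [ZMod.card]

lemma card_S {n k p m : ℕ} [NeZero n] (hp : p = m + 1 + k) (hn : n = 2 * p) :
    2 * (m + 1) ≤ (Finset.univ.filter (fun x : ZMod n => inS p m x.val)).card := by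
  classical
  have hinj : Set.InjOn (fun e : ℕ => (e : ZMod n)) (Finset.range n) := by
    intro a ha b hb hab
    simp only [Finset.coe_range, Set.mem_Iio] at ha hb
    have h2 := congrArg ZMod.val hab
    simp only at h2
    rwa [ZMod.val_natCast_of_lt ha, ZMod.val_natCast_of_lt hb] at h2
  have hcard : (Finset.range (m + 1) ∪ Finset.Icc p (p + m)).card = 2 * (m + 1) := by
    rw [Finset.card_union_of_disjoint]
    · simp; omega
    · rw [Finset.disjoint_left]
      intro x hx hx'
      simp only [Finset.mem_range, Finset.mem_Icc] at hx hx'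
      omega
  rw [← hcard, ← Finset.card_image_of_injOn (f := fun e : ℕ => (e : ZMod n))]
  · apply Finset.card_le_card
    intro x hx
    simp only [Finset.mem_image, Finset.mem_union, Finset.mem_range, Finset.mem_Icc] at hx
    obtain ⟨e, he, rfl⟩ := hx
    rw [Finset.mem_filter]
    refine ⟨Finset.mem_univ _, ?_⟩
    rw [ZMod.val_natCast_of_lt (by omega)]
    unfold inS
    omega
  · apply hinj.mono
    intro x hx
    simp only [Finset.coe_union, Finset.coe_range, Finset.coe_Icc, Set.mem_union, Set.mem_Iio,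
      Set.mem_Icc] at hx ⊢
    omega

/-- For every `t ≥ 1`, no `α ≤ 1 - 1/(2t)` is good for `t`. -/
theorem result (t : ℕ) (ht : 1 ≤ t) (α : ℝ) (hα : α ≤ 1 - 1 / (2 * t)) : ¬ Good t α := by
  classical
  rintro ⟨k₀, hk₀⟩
  set m := k₀ + 1 with hm
  set k := t * m with hk
  set p := m + 1 + k with hp
  set n := 2 * p with hn
  have : NeZero n := ⟨by omega⟩
  have hkm : m ≤ k := by
    rw [hk]; exact Nat.le_mul_of_pos_left m ht
  have htk : t ≤ k := by
    rw [hk]; exact Nat.le_mul_of_pos_right t (by omega)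
  have hH := hk₀ k (by omega) n (by omega) (by omega) (Hgr n k p m) ⟨fun i j h => h.1, by
    intro v
    have h1 := deg_ge (n := n) (k := k) (by omega) v
    have h2 := deg_H (n := n) (k := k) (p := p) (m := m) hp hn v
    set D := ((cyc n k).neighborSet v).ncard with hD
    set E := ((Hgr n k p m).neighborSet v).ncard with hE
    have h1' : (2 : ℝ) * (t * m) ≤ D := by
      have : (2 * (t * m) : ℕ) ≤ D := h1
      exact_mod_cast this
    have h2' : (D : ℝ) ≤ E + m := by exact_mod_cast h2
    have ht' : (0 : ℝ) < t := by exact_mod_cast ht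
    have h3 : (m : ℝ) ≤ D / (2 * t) := by
      rw [le_div_iff₀ (by positivity)]
      linarith
    have h4 : α * D ≤ (1 - 1 / (2 * t)) * D := mul_le_mul_of_nonneg_right hα (Nat.cast_nonneg _)
    have h5 : (1 - 1 / (2 * t)) * (D : ℝ) = D - D / (2 * t) := by ring
    linarith⟩
  have hS := indep_small (n := n) (t := t) (by omega) _ hH
    (Finset.univ.filter (fun x : ZMod n => inS p m x.val)) (by
      intro x hx y hy hadj
      rw [Finset.mem_filter] at hx hy
      exact hadj.2 ⟨hx.2, hy.2⟩)
  have hc := card_S (n := n) (k := k) (p := p) (m := m) hp hn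
  have h6 : (t + 1) * (2 * (m + 1)) ≤ n := (Nat.mul_le_mul_left _ hc).trans hS
  have h7 : (t + 1) * (2 * (m + 1)) = 2 * (t * m) + 2 * t + 2 * m + 2 := by ring
  omega

end Pool.Agent.Results.MP_61e9ba_co.IntervalBound
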